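import Pool.Agent.N658.FD.Restr2
import Pool.Agent.N658.FD.Cpl

/-!
MP_24b761_mp, Q1: the dimension of the density of states measure of the Fibonacci Hamiltonian is a
non-increasing function of the coupling constant.
-/

set_option autoImplicit false

open MeasureTheory Filter Topology Set
open scoped ENNReal

namespace Pool.Agent.Results.MP_24b761_mp.DimensionDecreases

/-- `α = (√5 - 1)/2` -/
noncomputable def alpha : ℝ := (Real.sqrt 5 - 1) / 2

/-- The Fibonacci potential `lam χ_{[1-α,1)}(nα + ω mod 1)`. -/
noncomputable def V (lam ω : ℝ) (n : ℤ) : ℝ :=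
  if 1 - alpha ≤ Int.fract ((n : ℝ) * alpha + ω) then lam else 0

/-- The restriction of the Fibonacci Hamiltonian `H_{lam,ω}` to `{1, …, N}`; the row and column
`i : Fin N` stands for the site `i + 1`. -/
noncomputable def restriction (lam ω : ℝ) (N : ℕ) : Matrix (Fin N) (Fin N) ℝ := fun i j =>
  (if i = j then V lam ω ((i : ℕ) + 1) else 0) +
    (if (i : ℕ) + 1 = j ∨ (j : ℕ) + 1 = i then 1 else 0)

/-- The number of eigenvalues `≤ E` of the restriction to `{1, …, N}`, with multiplicity. -/
noncomputable def count (lam ω : ℝ) (N : ℕ) (E : ℝ) : ℕ :=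
  ((restriction lam ω N).charpoly.roots.filter (fun x => x ≤ E)).card

/-- `ν` is the density of states measure of the Fibonacci Hamiltonian with coupling `lam`: a
probability measure with `ν((-∞, E]) = lim_N (1/N) #{eigenvalues ≤ E of the restriction of
H_{lam,ω} to {1, …, N}}` for every phase `ω` and every `E`. -/
def IsDensityOfStates (lam : ℝ) (ν : Measure ℝ) : Prop :=
  IsProbabilityMeasure ν ∧ ∀ ω E : ℝ,
    Tendsto (fun N : ℕ => (count lam ω N E : ℝ) / N) atTop (𝓝 (ν (Iic E)).toReal)

/-- Hausdorff dimension of a measure: `inf {dim_H S : S Borel, ν(S) = 1}`. -/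
noncomputable def measureDim (ν : Measure ℝ) : ℝ≥0∞ :=
  ⨅ (S : Set ℝ) (_ : MeasurableSet S) (_ : ν S = 1), dimH S

open Pool.Agent.N658.FD Pool.Agent.H695R3.ST Pool.Agent.W811.Dos

lemma V_eq (lam ω : ℝ) : V lam ω = pot lam al ω := by
  funext n
  unfold V pot
  rw [add_comm]
  rfl

lemma restriction_eq (lam ω : ℝ) (N : ℕ) : restriction lam ω N = HM (pot lam al ω) N := by
  rw [← V_eq]; rfl

lemma isDos {lam : ℝ} (hl : 0 < lam) : IsDensityOfStates lam (mu lam) := by
  refine ⟨inferInstance, fun ω E => ?_⟩
  unfold count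
  simp only [restriction_eq]
  exact count_lim hl ω E

lemma dos_unique {lam : ℝ} {ν ν' : Measure ℝ} (h : IsDensityOfStates lam ν)
    (h' : IsDensityOfStates lam ν') : ν = ν' := by
  have := h.1
  have := h'.1
  apply Measure.ext_of_Iic
  intro E
  have := tendsto_nhds_unique (h.2 0 E) (h'.2 0 E)
  rwa [ENNReal.toReal_eq_toReal_iff' (measure_ne_top _ _) (measure_ne_top _ _)] at this

lemma measureDim_eq (ν : Measure ℝ) [IsProbabilityMeasure ν] : measureDim ν = upDim ν := by
  unfold measureDim upDim
  congr 1
  funext S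
  congr 1
  funext hS
  have : ν S = 1 ↔ ν Sᶜ = 0 := (prob_compl_eq_zero_iff hS).symm
  simp only [this]

/-- **The dimension of the density of states measure of the Fibonacci Hamiltonian is a
non-increasing function of the coupling.** -/
theorem result :
    -- for every coupling `lam > 0` the density of states measure exists and is unique
    (∀ lam : ℝ, 0 < lam → ∃! ν : Measure ℝ, IsDensityOfStates lam ν) ∧
    -- its dimension does not increase with the coupling
    ∀ a b : ℝ, 0 < a → a ≤ b → ∀ νa νb : Measure ℝ, IsDensityOfStates a νa →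
      IsDensityOfStates b νb → measureDim νb ≤ measureDim νa := by
  refine ⟨fun lam hl => ⟨mu lam, isDos hl, fun ν hν => dos_unique hν (isDos hl)⟩, ?_⟩
  intro a b ha hab νa νb ha' hb'
  rw [dos_unique ha' (isDos ha), dos_unique hb' (isDos (lt_of_lt_of_le ha hab)),
    measureDim_eq, measureDim_eq]
  exact mono ha hab

end Pool.Agent.Results.MP_24b761_mp.DimensionDecreases
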